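import Mathlib

/-!
# An 8-satisfactory coloring of `K_8` that does not extend to the quotient group

The coloring is eventually periodic in the exponents of `2, 3, 5, 7`; it is given by a table with
`300 = 6 * 2 * 5 * 5` entries.  It cannot be extended to the group generated by `K_8`: looking at
the multiples of `5/2`, of `25/2` and of `3/2`, both `15/2` and `25/2` would have to get color `8`,
but they are the third and the fifth multiple of `5/2`.
-/

namespace Pool.Agent.Results.MP_bda3cd_nt.NonExtendable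

/-- `K_n`, the positive integers all of whose prime factors are at most `n`, as a set of
rationals. -/
def K (n : ℕ) : Set ℚ :=
  {x | ∃ m : ℕ, x = (m : ℚ) ∧ m ≠ 0 ∧ ∀ p : ℕ, p.Prime → p ∣ m → p ≤ n}

/-- `K̂_n`, the quotients `a / b` with `a, b ∈ K_n`. -/
def Khat (n : ℕ) : Set ℚ := {x | ∃ a ∈ K n, ∃ b ∈ K n, x = a / b}

/-- `c` restricted to `X` is an `n`-satisfactory coloring of `X` (`X = K_n` or `X = K̂_n`):
it takes values in `{1, …, n}` on `X`, `c i = i` for `1 ≤ i ≤ n`, and `c (i x) ≠ c (j x)` for all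
`x ∈ X` and `1 ≤ i < j ≤ n`. Values of `c` outside `X` are irrelevant. -/
def IsSatisfactory (n : ℕ) (X : Set ℚ) (c : ℚ → ℕ) : Prop :=
  (∀ x ∈ X, 1 ≤ c x ∧ c x ≤ n) ∧
  (∀ i : ℕ, 1 ≤ i → i ≤ n → c (i : ℚ) = i) ∧
  (∀ x ∈ X, ∀ i j : ℕ, 1 ≤ i → i < j → j ≤ n → c ((i : ℚ) * x) ≠ c ((j : ℚ) * x))

/-! ### The coloring -/

/-- exponents of `2`: preperiod `2`, period `4` -/
def red2 (a : ℕ) : ℕ := if a < 6 then a else 2 + (a - 2) % 4

/-- exponents of `5` and of `7`: preperiod `1`, period `4` -/
def red5 (a : ℕ) : ℕ := if a < 5 then a else 1 + (a - 1) % 4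

/-- base 8 encoding of the table -/
def T : ℕ := 1469813598477773633388645987604841338475407192169285529980282261476369954844090043878371389616804214227777372679498556831337795641488972724777084646744660078209318604831805065836130978022551272495719897879913843339367164267246314827992914240555786824352910875934546332912

def entry (a b c d : ℕ) : ℕ := T / 8 ^ (((a * 2 + b) * 5 + c) * 5 + d) % 8 + 1

def table (a b c d : ℕ) : ℕ := entry (red2 a) (b % 2) (red5 c) (red5 d)

/-- exponents of `i` for `1 ≤ i ≤ 8` -/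
def ex2 (i : ℕ) : ℕ := if i = 8 then 3 else if i = 4 then 2 else if i = 2 ∨ i = 6 then 1 else 0
def ex3 (i : ℕ) : ℕ := if i = 3 ∨ i = 6 then 1 else 0
def ex5 (i : ℕ) : ℕ := if i = 5 then 1 else 0
def ex7 (i : ℕ) : ℕ := if i = 7 then 1 else 0

lemma red2_lt (a : ℕ) : red2 a < 6 := by unfold red2; split_ifs <;> omega
lemma red5_lt (a : ℕ) : red5 a < 5 := by unfold red5; split_ifs <;> omega
lemma red2_add (a k : ℕ) : red2 (a + k) = red2 (red2 a + k) := by
  unfold red2; split_ifs <;> omega
lemma red5_add (a k : ℕ) : red5 (a + k) = red5 (red5 a + k) := by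
  unfold red5; split_ifs <;> omega

lemma table_add (a b c d a' b' c' d' : ℕ) : table (a + a') (b + b') (c + c') (d + d') =
    table (red2 a + a') (b % 2 + b') (red5 c + c') (red5 d + d') := by
  unfold table
  rw [red2_add a a', red5_add c c', red5_add d d']
  congr 1
  omega

/-- finite verification that every translate of the shape gets distinct colors -/
def check : Bool :=
  (List.range 6).all fun a => (List.range 2).all fun b => (List.range 5).all fun c =>
    (List.range 5).all fun d => (List.range 9).all fun j => (List.range j).all fun i =>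
      Nat.beq i 0 || !Nat.beq (table (a + ex2 i) (b + ex3 i) (c + ex5 i) (d + ex7 i))
        (table (a + ex2 j) (b + ex3 j) (c + ex5 j) (d + ex7 j))

lemma check_true : check = true := by decide +kernel

lemma table_check (a : ℕ) (ha : a < 6) (b : ℕ) (hb : b < 2) (c : ℕ) (hc : c < 5) (d : ℕ)
    (hd : d < 5) (j : ℕ) (hj : j < 9) (i : ℕ) (hij : i < j) (hi : 1 ≤ i) :
    table (a + ex2 i) (b + ex3 i) (c + ex5 i) (d + ex7 i) ≠
    table (a + ex2 j) (b + ex3 j) (c + ex5 j) (d + ex7 j) := by
  have h := check_true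
  unfold check at h
  have h1 := List.all_eq_true.1 h a (List.mem_range.2 ha)
  have h2 := List.all_eq_true.1 h1 b (List.mem_range.2 hb)
  have h3 := List.all_eq_true.1 h2 c (List.mem_range.2 hc)
  have h4 := List.all_eq_true.1 h3 d (List.mem_range.2 hd)
  have h5 := List.all_eq_true.1 h4 j (List.mem_range.2 hj)
  have h6 := List.all_eq_true.1 h5 i (List.mem_range.2 hij)
  rw [Bool.or_eq_true] at h6
  rcases h6 with h6 | h6
  · have := Nat.eq_of_beq_eq_true h6
    omega
  · intro heq
    rw [heq] at h6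
    simp [Nat.beq_refl] at h6

lemma table_ne (a b c d i j : ℕ) (hi : 1 ≤ i) (hij : i < j) (hj : j ≤ 8) :
    table (a + ex2 i) (b + ex3 i) (c + ex5 i) (d + ex7 i) ≠
    table (a + ex2 j) (b + ex3 j) (c + ex5 j) (d + ex7 j) := by
  rw [table_add a b c d, table_add a b c d]
  exact table_check _ (red2_lt a) _ (Nat.mod_lt _ (by norm_num)) _ (red5_lt c) _ (red5_lt d) j
    (by omega) i hij hi

lemma table_range (a b c d : ℕ) : 1 ≤ table a b c d ∧ table a b c d ≤ 8 := by
  unfold table entry; omega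

/-- the coloring on natural numbers -/
noncomputable def colN (m : ℕ) : ℕ :=
  table (m.factorization 2) (m.factorization 3) (m.factorization 5) (m.factorization 7)

/-- the coloring on rationals -/
noncomputable def col (x : ℚ) : ℕ := colN x.num.natAbs

lemma col_cast (m : ℕ) : col (m : ℚ) = colN m := by
  unfold col; simp

lemma fact_ex (i : ℕ) (h1 : 1 ≤ i) (h8 : i ≤ 8) :
    i.factorization 2 = ex2 i ∧ i.factorization 3 = ex3 i ∧ i.factorization 5 = ex5 i ∧
      i.factorization 7 = ex7 i := by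
  have : ∀ i < 9, 1 ≤ i → (i.factorization 2 = ex2 i ∧ i.factorization 3 = ex3 i ∧
      i.factorization 5 = ex5 i ∧ i.factorization 7 = ex7 i) := by decide +kernel
  exact this i (by omega) h1

lemma colN_mul (m i : ℕ) (hm : m ≠ 0) (h1 : 1 ≤ i) (h8 : i ≤ 8) :
    colN (i * m) = table (m.factorization 2 + ex2 i) (m.factorization 3 + ex3 i)
      (m.factorization 5 + ex5 i) (m.factorization 7 + ex7 i) := by
  obtain ⟨h2, h3, h5, h7⟩ := fact_ex i h1 h8
  unfold colN
  rw [Nat.factorization_mul (by omega) hm]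
  simp only [Finsupp.add_apply, h2, h3, h5, h7]
  congr 1 <;> omega

lemma colN_values : colN 1 = 1 ∧ colN 2 = 2 ∧ colN 3 = 3 ∧ colN 4 = 4 ∧ colN 5 = 5 ∧ colN 6 = 6 ∧
    colN 7 = 7 ∧ colN 8 = 8 ∧ colN 9 = 1 ∧ colN 10 = 3 ∧ colN 12 = 7 ∧ colN 15 = 4 ∧
    colN 20 = 2 ∧ colN 25 = 1 ∧ colN 50 = 6 ∧ colN 75 = 7 ∧ colN 100 = 4 := by
  unfold colN
  decide +kernel

lemma col_satisfactory : IsSatisfactory 8 (K 8) col := by
  refine ⟨?_, ?_, ?_⟩
  · rintro x ⟨m, rfl, -, -⟩
    rw [col_cast]
    exact table_range _ _ _ _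
  · intro i h1 h8
    rw [col_cast]
    obtain ⟨c1, c2, c3, c4, c5, c6, c7, c8, -⟩ := colN_values
    interval_cases i <;> assumption
  · rintro x ⟨m, rfl, hm, -⟩ i j hi hij hj
    rw [← Nat.cast_mul, ← Nat.cast_mul, col_cast, col_cast, colN_mul m i hm hi (by omega),
      colN_mul m j hm (by omega) hj]
    exact table_ne _ _ _ _ i j hi hij hj

/-! ### Membership of small numbers -/

lemma mem_K_of (m : ℕ) (hm : m ≠ 0) (h : m.primeFactors ⊆ {2, 3, 5, 7}) : (m : ℚ) ∈ K 8 := by
  refine ⟨m, rfl, hm, fun p hp hpm => ?_⟩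
  have := h (Nat.mem_primeFactors.2 ⟨hp, hpm, hm⟩)
  simp only [Finset.mem_insert, Finset.mem_singleton] at this
  omega

/-- The coloring does not extend. -/
lemma not_extendable (c' : ℚ → ℕ) (hc' : IsSatisfactory 8 (Khat 8) c')
    (hext : ∀ x ∈ K 8, c' x = col x) : False := by
  obtain ⟨hr, -, hne⟩ := hc'
  obtain ⟨-, -, c3, -, c5, c6, -, -, c9, c10, c12, c15, c20, c25, c50, c75, c100⟩ := colN_values
  have hval : ∀ m : ℕ, m ≠ 0 → m.primeFactors ⊆ {2, 3, 5, 7} → c' (m : ℚ) = colN m := by
    intro m hm h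
    rw [hext _ (mem_K_of m hm h), col_cast]
  have v3 : c' 3 = 3 := by
    have := hval 3 (by norm_num) (by decide +kernel); rw [c3] at this; exact_mod_cast this
  have v5 : c' 5 = 5 := by
    have := hval 5 (by norm_num) (by decide +kernel); rw [c5] at this; exact_mod_cast this
  have v6 : c' 6 = 6 := by
    have := hval 6 (by norm_num) (by decide +kernel); rw [c6] at this; exact_mod_cast this
  have v9 : c' 9 = 1 := by
    have := hval 9 (by norm_num) (by decide +kernel); rw [c9] at this; exact_mod_cast this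
  have v10 : c' 10 = 3 := by
    have := hval 10 (by norm_num) (by decide +kernel); rw [c10] at this; exact_mod_cast this
  have v12 : c' 12 = 7 := by
    have := hval 12 (by norm_num) (by decide +kernel); rw [c12] at this; exact_mod_cast this
  have v15 : c' 15 = 4 := by
    have := hval 15 (by norm_num) (by decide +kernel); rw [c15] at this; exact_mod_cast this
  have v20 : c' 20 = 2 := by
    have := hval 20 (by norm_num) (by decide +kernel); rw [c20] at this; exact_mod_cast this
  have v25 : c' 25 = 1 := by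
    have := hval 25 (by norm_num) (by decide +kernel); rw [c25] at this; exact_mod_cast this
  have v50 : c' 50 = 6 := by
    have := hval 50 (by norm_num) (by decide +kernel); rw [c50] at this; exact_mod_cast this
  have v75 : c' 75 = 7 := by
    have := hval 75 (by norm_num) (by decide +kernel); rw [c75] at this; exact_mod_cast this
  have v100 : c' 100 = 4 := by
    have := hval 100 (by norm_num) (by decide +kernel); rw [c100] at this; exact_mod_cast this
  have k2 : (2 : ℚ) ∈ K 8 := by exact_mod_cast mem_K_of 2 (by norm_num) (by decide +kernel)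
  have m52 : (5 / 2 : ℚ) ∈ Khat 8 :=
    ⟨5, by exact_mod_cast mem_K_of 5 (by norm_num) (by decide +kernel), 2, k2, rfl⟩
  have m32 : (3 / 2 : ℚ) ∈ Khat 8 :=
    ⟨3, by exact_mod_cast mem_K_of 3 (by norm_num) (by decide +kernel), 2, k2, rfl⟩
  have m252 : (25 / 2 : ℚ) ∈ Khat 8 :=
    ⟨25, by exact_mod_cast mem_K_of 25 (by norm_num) (by decide +kernel), 2, k2, rfl⟩
  have m152 : (15 / 2 : ℚ) ∈ Khat 8 :=
    ⟨15, by exact_mod_cast mem_K_of 15 (by norm_num) (by decide +kernel), 2, k2, rfl⟩
  -- the multiples of `5 / 2`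
  have A : ∀ i j : ℕ, 1 ≤ i → i < j → j ≤ 8 → ∀ y z : ℚ, (i : ℚ) * (5 / 2) = y →
      (j : ℚ) * (5 / 2) = z → c' y ≠ c' z := by
    intro i j hi hij hj y z hy hz; rw [← hy, ← hz]; exact hne _ m52 i j hi hij hj
  have B : ∀ i j : ℕ, 1 ≤ i → i < j → j ≤ 8 → ∀ y z : ℚ, (i : ℚ) * (25 / 2) = y →
      (j : ℚ) * (25 / 2) = z → c' y ≠ c' z := by
    intro i j hi hij hj y z hy hz; rw [← hy, ← hz]; exact hne _ m252 i j hi hij hj
  have C : ∀ i j : ℕ, 1 ≤ i → i < j → j ≤ 8 → ∀ y z : ℚ, (i : ℚ) * (3 / 2) = y →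
      (j : ℚ) * (3 / 2) = z → c' y ≠ c' z := by
    intro i j hi hij hj y z hy hz; rw [← hy, ← hz]; exact hne _ m32 i j hi hij hj
  -- `15/2 = 3 * (5/2)`, `25/2 = 5 * (5/2)`
  have p1 := A 2 3 (by norm_num) (by norm_num) (by norm_num) 5 (15 / 2) (by norm_num) (by norm_num)
  have p2 := A 3 4 (by norm_num) (by norm_num) (by norm_num) (15 / 2) 10 (by norm_num) (by norm_num)
  have p3 := A 3 6 (by norm_num) (by norm_num) (by norm_num) (15 / 2) 15 (by norm_num) (by norm_num)
  have p4 := A 3 8 (by norm_num) (by norm_num) (by norm_num) (15 / 2) 20 (by norm_num) (by norm_num)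
  have p5 := A 2 5 (by norm_num) (by norm_num) (by norm_num) 5 (25 / 2) (by norm_num) (by norm_num)
  have p6 := A 4 5 (by norm_num) (by norm_num) (by norm_num) 10 (25 / 2) (by norm_num) (by norm_num)
  have p7 := A 5 6 (by norm_num) (by norm_num) (by norm_num) (25 / 2) 15 (by norm_num) (by norm_num)
  have p8 := A 5 8 (by norm_num) (by norm_num) (by norm_num) (25 / 2) 20 (by norm_num) (by norm_num)
  have p9 := A 3 5 (by norm_num) (by norm_num) (by norm_num) (15 / 2) (25 / 2) (by norm_num)
    (by norm_num)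
  have q1 := B 1 2 (by norm_num) (by norm_num) (by norm_num) (25 / 2) 25 (by norm_num) (by norm_num)
  have q2 := B 1 4 (by norm_num) (by norm_num) (by norm_num) (25 / 2) 50 (by norm_num) (by norm_num)
  have q3 := B 1 6 (by norm_num) (by norm_num) (by norm_num) (25 / 2) 75 (by norm_num) (by norm_num)
  have s1 := C 2 5 (by norm_num) (by norm_num) (by norm_num) 3 (15 / 2) (by norm_num) (by norm_num)
  have s2 := C 4 5 (by norm_num) (by norm_num) (by norm_num) 6 (15 / 2) (by norm_num) (by norm_num)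
  have s3 := C 5 6 (by norm_num) (by norm_num) (by norm_num) (15 / 2) 9 (by norm_num) (by norm_num)
  have s4 := C 5 8 (by norm_num) (by norm_num) (by norm_num) (15 / 2) 12 (by norm_num) (by norm_num)
  have r1 := hr _ m152
  have r2 := hr _ m252
  rw [v5] at p1 p5
  rw [v10] at p2 p6
  rw [v15] at p3 p7
  rw [v20] at p4 p8
  rw [v25] at q1
  rw [v50] at q2
  rw [v75] at q3
  rw [v3] at s1
  rw [v6] at s2
  rw [v9] at s3
  rw [v12] at s4
  omega

/-- **Negative answer to Q1** (already for `n = 8`): there is an `8`-satisfactory coloring of `K_8`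
which is not the restriction of any `8`-satisfactory coloring of `K̂_8`. -/
theorem result : ∃ c : ℚ → ℕ, IsSatisfactory 8 (K 8) c ∧
    ¬ ∃ c' : ℚ → ℕ, IsSatisfactory 8 (Khat 8) c' ∧ ∀ x ∈ K 8, c' x = c x :=
  ⟨col, col_satisfactory, fun ⟨c', hc', hext⟩ => not_extendable c' hc' hext⟩

end Pool.Agent.Results.MP_bda3cd_nt.NonExtendable
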